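import Pool.Agent.R373.SQ.Stmts

set_option autoImplicit false

namespace Pool.Agent.R815.SQ

open Finset Pool.Agent.R373.SQ

open Classical in
lemma filter_range_add (p : ℕ → Prop) (m r : ℕ) :
    ((range (m + r)).filter p).card
      = ((range m).filter p).card + ((range r).filter fun i => p (m + i)).card := by
  rw [← Nat.count_eq_card_filter_range, ← Nat.count_eq_card_filter_range,
    ← Nat.count_eq_card_filter_range, Nat.count_add]

theorem B_ok : St_B := by
  classical
  intro α τ _ A c lam B hB H h
  induction h with
  | zero =>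
    intro I hI a b Φ hb ha hbΦ
    rw [pow_zero] at hI
    obtain ⟨q, rfl⟩ := Finset.card_eq_one.mp hI
    have hcount : ∀ t, ((range 1).filter (fun _ => A t q)).card = (({q} : Finset α).filter (A t)).card := by
      intro t
      by_cases hq : A t q
      · rw [Finset.filter_true_of_mem (fun _ _ => hq), Finset.filter_true_of_mem]
        · simp
        · intro x hx
          rw [Finset.mem_singleton.mp hx]
          exact hq
      · rw [Finset.filter_false_of_mem (fun _ _ => hq), Finset.filter_false_of_mem]
        · simp
        · intro x hx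
          rw [Finset.mem_singleton.mp hx]
          exact hq
    refine ⟨fun _ => q, fun _ _ => Finset.mem_singleton_self q, fun t => ?_, fun r hr => ?_⟩
    · rw [pow_zero]
      exact hcount t
    · rw [pow_zero] at hr ⊢
      rw [one_mul]
      interval_cases r
      · simpa using ha
      · refine le_trans (le_of_eq ?_) hbΦ
        apply Finset.sum_congr rfl
        intro t _
        rw [hcount t, hb t]
        norm_num
  | succ h ih =>
    intro I hI a b Φ hb ha hbΦ
    have hIc : I.card = 2 * 2 ^ h := by rw [hI]; ring
    obtain ⟨J, hJI, hJc, hJ⟩ := H I (2 ^ h) hIc (fun t => Real.cosh (lam * ((a t + b t) / 2)))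
      (fun t => (Real.cosh_pos _).le)
    have hJc' : (I \ J).card = 2 ^ h := by
      rw [Finset.card_sdiff_of_subset hJI, hIc, hJc]; omega
    have hsplit : ∀ t, ((I.filter (A t)).card : ℝ) = ((J.filter (A t)).card : ℝ)
        + (((I \ J).filter (A t)).card : ℝ) := by
      intro t
      rw [← Nat.cast_add, ← Finset.card_union_of_disjoint]
      · rw [← Finset.filter_union, Finset.union_sdiff_of_subset hJI]
      · exact Finset.disjoint_filter_filter Finset.disjoint_sdiff
    have hw : ∑ t, Real.cosh (lam * ((a t + b t) / 2)) ≤ Φ := by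
      have h1 : ∀ t, Real.cosh (lam * ((a t + b t) / 2))
          ≤ (Real.cosh (lam * a t) + Real.cosh (lam * b t)) / 2 := by
        intro t
        have e1 : lam * a t = lam * ((a t + b t) / 2) + lam * ((a t - b t) / 2) := by ring
        have e2 : lam * b t = lam * ((a t + b t) / 2) - lam * ((a t - b t) / 2) := by ring
        rw [e1, e2, Real.cosh_add, Real.cosh_sub]
        have c1 := Real.one_le_cosh (lam * ((a t - b t) / 2))
        have c2 := Real.cosh_pos (lam * ((a t + b t) / 2))
        nlinarith
      calc ∑ t, Real.cosh (lam * ((a t + b t) / 2))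
          ≤ ∑ t, (Real.cosh (lam * a t) + Real.cosh (lam * b t)) / 2 :=
            Finset.sum_le_sum fun t _ => h1 t
        _ = (∑ t, Real.cosh (lam * a t) + ∑ t, Real.cosh (lam * b t)) / 2 := by
            rw [← Finset.sum_add_distrib, Finset.sum_div]
        _ ≤ Φ := by linarith
    have hΦ0 : 0 ≤ Φ := le_trans (Finset.sum_nonneg fun t _ => (Real.cosh_pos _).le) ha
    have hBΦ : Φ ≤ B * Φ := le_mul_of_one_le_left hΦ0 hB
    have hsum : ∑ t, Real.cosh (lam * (a t + ((J.filter (A t)).card : ℝ) - 2 ^ h * c t))
        + ∑ t, Real.cosh (lam * (a t + (((I \ J).filter (A t)).card : ℝ) - 2 ^ h * c t))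
        ≤ 2 * (B * Φ) := by
      rw [← Finset.sum_add_distrib]
      have h1 : ∀ t, Real.cosh (lam * (a t + ((J.filter (A t)).card : ℝ) - 2 ^ h * c t))
          + Real.cosh (lam * (a t + (((I \ J).filter (A t)).card : ℝ) - 2 ^ h * c t))
          = 2 * (Real.cosh (lam * ((a t + b t) / 2)) * Real.cosh (lam / 2 *
            (((J.filter (A t)).card : ℝ) - (((I \ J).filter (A t)).card : ℝ)))) := by
        intro t
        have e0 := hb t
        rw [hsplit t, pow_succ] at e0
        have e1 : lam * (a t + ((J.filter (A t)).card : ℝ) - 2 ^ h * c t)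
            = lam * ((a t + b t) / 2) + lam / 2 *
            (((J.filter (A t)).card : ℝ) - (((I \ J).filter (A t)).card : ℝ)) := by
          rw [e0]; ring
        have e2 : lam * (a t + (((I \ J).filter (A t)).card : ℝ) - 2 ^ h * c t)
            = lam * ((a t + b t) / 2) - lam / 2 *
            (((J.filter (A t)).card : ℝ) - (((I \ J).filter (A t)).card : ℝ)) := by
          rw [e0]; ring
        rw [e1, e2, Real.cosh_add, Real.cosh_sub]
        ring
      simp only [h1]
      rw [← Finset.mul_sum]
      apply mul_le_mul_of_nonneg_left _ (by norm_num)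
      exact hJ.trans (mul_le_mul_of_nonneg_left hw (by linarith))
    -- choose the good half
    obtain ⟨J1, hJ1I, hJ1c, hJ2c, hJ1⟩ : ∃ J1 ⊆ I, J1.card = 2 ^ h ∧ (I \ J1).card = 2 ^ h ∧
        ∑ t, Real.cosh (lam * (a t + ((J1.filter (A t)).card : ℝ) - 2 ^ h * c t)) ≤ B * Φ := by
      by_cases hc : ∑ t, Real.cosh (lam * (a t + ((J.filter (A t)).card : ℝ) - 2 ^ h * c t)) ≤ B * Φ
      · exact ⟨J, hJI, hJc, hJc', hc⟩
      · refine ⟨I \ J, Finset.sdiff_subset, hJc', ?_, by push Not at hc; linarith⟩
        rw [Finset.sdiff_sdiff_eq_self hJI, hJc]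
    have hsplit1 : ∀ t, ((I.filter (A t)).card : ℝ) = ((J1.filter (A t)).card : ℝ)
        + (((I \ J1).filter (A t)).card : ℝ) := by
      intro t
      rw [← Nat.cast_add, ← Finset.card_union_of_disjoint]
      · rw [← Finset.filter_union, Finset.union_sdiff_of_subset hJ1I]
      · exact Finset.disjoint_filter_filter Finset.disjoint_sdiff
    obtain ⟨o1, p1, p2, p3⟩ := ih J1 hJ1c a
      (fun t => a t + ((J1.filter (A t)).card : ℝ) - 2 ^ h * c t) (B * Φ) (fun t => rfl)
      (ha.trans hBΦ) hJ1
    obtain ⟨o2, q1, q2, q3⟩ := ih (I \ J1) hJ2c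
      (fun t => a t + ((J1.filter (A t)).card : ℝ) - 2 ^ h * c t) b (B * Φ)
      (fun t => by rw [hb t, hsplit1 t, pow_succ]; ring) hJ1 (hbΦ.trans hBΦ)
    have hlow : ∀ r ≤ 2 ^ h, ∀ t, ((range r).filter
        (fun i => A t (if i < 2 ^ h then o1 i else o2 (i - 2 ^ h)))).card
        = ((range r).filter (fun i => A t (o1 i))).card := by
      intro r hr t
      congr 1
      apply Finset.filter_congr
      intro i hi
      have : i < 2 ^ h := lt_of_lt_of_le (Finset.mem_range.mp hi) hr
      rw [if_pos this]
    have hhigh : ∀ r, ∀ t, ((range (2 ^ h + r)).filter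
        (fun i => A t (if i < 2 ^ h then o1 i else o2 (i - 2 ^ h)))).card
        = (J1.filter (A t)).card + ((range r).filter (fun i => A t (o2 i))).card := by
      intro r t
      rw [filter_range_add, hlow _ le_rfl, p2]
      congr 2
      apply Finset.filter_congr
      intro i _
      rw [if_neg (by omega), Nat.add_sub_cancel_left]
    refine ⟨fun i => if i < 2 ^ h then o1 i else o2 (i - 2 ^ h), ?_, ?_, ?_⟩
    · intro i hi
      simp only
      split_ifs with hi2
      · exact hJ1I (p1 i hi2)
      · have : i - 2 ^ h < 2 ^ h := by rw [pow_succ] at hi; omega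
        exact Finset.sdiff_subset (q1 _ this)
    · intro t
      have e : 2 ^ (h + 1) = 2 ^ h + 2 ^ h := by ring
      rw [e, hhigh, q2]
      have := hsplit1 t
      exact_mod_cast this.symm
    · intro r hr
      rcases le_or_gt r (2 ^ h) with hr1 | hr1
      · calc ∑ t, Real.cosh (lam * (a t + (((range r).filter (fun i => A t (if i < 2 ^ h then o1 i
              else o2 (i - 2 ^ h)))).card : ℝ) - r * c t))
            = ∑ t, Real.cosh (lam * (a t + (((range r).filter (fun i => A t (o1 i))).card : ℝ)
              - r * c t)) := by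
              apply Finset.sum_congr rfl
              intro t _
              rw [hlow r hr1 t]
          _ ≤ B ^ h * (B * Φ) := p3 r hr1
          _ = B ^ (h + 1) * Φ := by ring
      · obtain ⟨s, rfl⟩ := Nat.exists_eq_add_of_le hr1.le
        have hs : s ≤ 2 ^ h := by rw [pow_succ] at hr; omega
        calc ∑ t, Real.cosh (lam * (a t + (((range (2 ^ h + s)).filter (fun i => A t
              (if i < 2 ^ h then o1 i else o2 (i - 2 ^ h)))).card : ℝ) - (2 ^ h + s : ℕ) * c t))
            = ∑ t, Real.cosh (lam * ((a t + ((J1.filter (A t)).card : ℝ) - 2 ^ h * c t)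
              + (((range s).filter (fun i => A t (o2 i))).card : ℝ) - s * c t)) := by
              apply Finset.sum_congr rfl
              intro t _
              rw [hhigh s t]
              congr 2
              push_cast
              ring
          _ ≤ B ^ h * (B * Φ) := q3 s hs
          _ = B ^ (h + 1) * Φ := by ring

end Pool.Agent.R815.SQ
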