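import Pool.Agent.R815.SQB

set_option autoImplicit false

namespace Pool.Agent.R815.SQ

open Finset Pool.Agent.R373.SQ

/-- block lengths and starting points -/
def len (j : ℕ) : ℕ := 2 ^ (2 ^ j)

def St (k : ℕ) : ℕ := ∑ j ∈ range k, len j

lemma len_pos (j : ℕ) : 0 < len j := by unfold len; positivity

lemma St_succ (k : ℕ) : St (k + 1) = St k + len k := by unfold St; rw [Finset.sum_range_succ]

lemma le_St (k : ℕ) : k ≤ St k := by
  induction k with
  | zero => simp
  | succ k ih => rw [St_succ]; have := len_pos k; omega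

lemma exists_blk (n : ℕ) : ∃ j, n < St (j + 1) := ⟨n, lt_of_lt_of_le (Nat.lt_succ_self n) (le_St _)⟩

/-- the block of `n` -/
noncomputable def blk (n : ℕ) : ℕ := Nat.find (exists_blk n)

lemma blk_lt (n : ℕ) : n < St (blk n + 1) := Nat.find_spec (exists_blk n)

lemma blk_le (n : ℕ) : St (blk n) ≤ n := by
  rcases Nat.eq_zero_or_pos (blk n) with h | h
  · rw [h]; simp [St]
  · have := Nat.find_min (exists_blk n) (m := blk n - 1) (Nat.sub_lt h one_pos)
    have e : blk n - 1 + 1 = blk n := by omega
    rw [e] at this
    omega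

lemma St_mono {i j : ℕ} (h : i ≤ j) : St i ≤ St j :=
  Finset.sum_le_sum_of_subset (Finset.range_subset_range.mpr h)

lemma blk_eq {k n : ℕ} (h1 : St k ≤ n) (h2 : n < St (k + 1)) : blk n = k := by
  apply le_antisymm
  · exact Nat.find_min' _ h2
  · by_contra h
    push Not at h
    have h3 := blk_lt n
    have h4 : St (blk n + 1) ≤ St k := St_mono h
    omega

open Classical in
theorem C_ok : St_C := by
  intro X ι A c d hd C0 hC0 P H
  have hK : ∀ j : ℕ, 1 ≤ 2 ^ j := fun j => Nat.one_le_two_pow
  choose y hy1 hy2 using fun j : ℕ => H (2 ^ j) (hK j)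
  set x : ℕ → X := fun n => y (blk n) (n - St (blk n)) with hx
  -- counting in blocks
  have hblock : ∀ k r, r ≤ len k → ∀ a,
      ((range r).filter (fun i => x (St k + i) ∈ A a)).card
        = ((range r).filter (fun i => y k i ∈ A a)).card := by
    intro k r hr a
    congr 1
    apply Finset.filter_congr
    intro i hi
    have hi' := Finset.mem_range.mp hi
    have hb : blk (St k + i) = k := by
      apply blk_eq (Nat.le_add_right _ _)
      rw [St_succ]
      omega
    rw [hx]
    simp only
    rw [hb, Nat.add_sub_cancel_left]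
  have hgeom : ∀ k : ℕ, ∑ j ∈ range (k + 1), ((2 : ℝ) ^ j) ^ d ≤ 2 * ((2 : ℝ) ^ k) ^ d := by
    intro k
    induction k with
    | zero => simp
    | succ k ih =>
      rw [Finset.sum_range_succ]
      have h1 : (2 : ℝ) * ((2 : ℝ) ^ k) ^ d ≤ ((2 : ℝ) ^ (k + 1)) ^ d := by
        rw [pow_succ (2 : ℝ) k, mul_pow, mul_comm]
        apply mul_le_mul_of_nonneg_left _ (by positivity)
        calc (2 : ℝ) = 2 ^ 1 := by norm_num
          _ ≤ 2 ^ d := pow_le_pow_right₀ (by norm_num) hd
      linarith
  have herr : ∀ k r, r ≤ len k → ∀ a,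
      |(((range (St k + r)).filter (fun i => x i ∈ A a)).card : ℝ) - (St k + r : ℕ) * c a|
        ≤ C0 * ∑ j ∈ range (k + 1), ((2 : ℝ) ^ j) ^ d := by
    intro k
    induction k with
    | zero =>
      intro r hr a
      have h1 := hy2 0 r hr a
      have h2 := hblock 0 r hr a
      have h0 : St 0 = 0 := by simp [St]
      rw [h0] at h2 ⊢
      simp only [zero_add] at h2 ⊢
      rw [h2]
      simpa using h1
    | succ k ih =>
      intro r hr a
      have h1 := ih (len k) le_rfl a
      rw [← St_succ] at h1
      have h2 := hy2 (k + 1) r hr a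
      have h3 := hblock (k + 1) r hr a
      rw [filter_range_add, h3, Finset.sum_range_succ, mul_add]
      push_cast at h1 h2 ⊢
      have e : ((((range (St (k + 1))).filter (fun i => x i ∈ A a)).card : ℝ)
          + (((range r).filter (fun i => y (k + 1) i ∈ A a)).card : ℝ))
          - ((St (k + 1) : ℝ) + r) * c a
          = ((((range (St (k + 1))).filter (fun i => x i ∈ A a)).card : ℝ) - (St (k + 1) : ℝ) * c a)
          + ((((range r).filter (fun i => y (k + 1) i ∈ A a)).card : ℝ) - r * c a) := by ring
      rw [e]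
      exact (abs_add_le _ _).trans (add_le_add h1 h2)
  refine ⟨x, fun i => ?_, fun N hN a => ?_⟩
  · apply hy1
    have h1 := blk_lt i
    have h2 := blk_le i
    rw [St_succ] at h1
    unfold len at h1
    omega
  · set k := blk N with hk
    have h1 := blk_le N
    have h2 := blk_lt N
    rw [← hk] at h1 h2
    obtain ⟨r, hNr⟩ := Nat.exists_eq_add_of_le h1
    have hr : r ≤ len k := by rw [St_succ] at h2; omega
    have h6 := herr k r hr a
    rw [← hNr] at h6
    refine h6.trans ?_
    have hlog2 : 0 < Real.log 2 := Real.log_pos (by norm_num)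
    have hpow : (2 : ℝ) ^ k ≤ 2 / Real.log 2 * Real.log N := by
      rw [div_mul_eq_mul_div, le_div_iff₀ hlog2]
      rcases Nat.eq_zero_or_pos k with h0 | h0
      · rw [h0, pow_zero, one_mul]
        have : Real.log 2 ≤ Real.log N := Real.log_le_log (by norm_num) (by exact_mod_cast hN)
        linarith
      · obtain ⟨l, hl⟩ := Nat.exists_eq_succ_of_ne_zero h0.ne'
        have h3 : len l ≤ N := by
          have : St k = St l + len l := by rw [hl]; exact St_succ l
          omega
        have h4 : ((2 : ℝ) ^ (2 ^ l)) ≤ N := by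
          have : ((len l : ℕ) : ℝ) ≤ N := by exact_mod_cast h3
          unfold len at this
          push_cast at this
          exact this
        have h5 := Real.log_le_log (by positivity) h4
        rw [Real.log_pow] at h5
        push_cast at h5
        rw [hl, Nat.succ_eq_add_one, pow_succ]
        nlinarith
    calc C0 * ∑ j ∈ range (k + 1), ((2 : ℝ) ^ j) ^ d ≤ C0 * (2 * ((2 : ℝ) ^ k) ^ d) :=
          mul_le_mul_of_nonneg_left (hgeom k) hC0
      _ ≤ C0 * (2 * (2 / Real.log 2 * Real.log N) ^ d) := by
          apply mul_le_mul_of_nonneg_left _ hC0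
          apply mul_le_mul_of_nonneg_left _ (by norm_num)
          exact pow_le_pow_left₀ (by positivity) hpow d
      _ = (2 * (2 / Real.log 2) ^ d * C0) * (Real.log N) ^ d := by
          rw [mul_pow]; ring

end Pool.Agent.R815.SQ
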