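import Pool.Agent.R815.FunGraph
import Pool.Agent.Results.MP_7baebc_gt.ParabolicHalf

/-!
# Universal partitions of the hyperbolic plane
-/

set_option autoImplicit false

open Cardinal

namespace Pool.Agent.R815.Congruences

open UpperHalfPlane

/-- the involution `z ↦ t - 1 / (c ^ 2 (z - t))` -/
noncomputable def inv (c t : ℝ) (hc : c ≠ 0) : Matrix.SpecialLinearGroup (Fin 2) ℝ :=
  ⟨!![c * t, -(c⁻¹) - c * t ^ 2; c, -(c * t)], by
    rw [Matrix.det_fin_two_of]; field_simp; ring⟩

/-- the dilation `z ↦ c ^ 2 z` -/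
noncomputable def dil (c : ℝ) (hc : c ≠ 0) : Matrix.SpecialLinearGroup (Fin 2) ℝ :=
  ⟨!![c, 0; 0, c⁻¹], by rw [Matrix.det_fin_two_of]; field_simp; ring⟩

theorem sub_real_ne_zero (z : ℍ) (t : ℝ) : (z : ℂ) - t ≠ 0 := by
  intro h
  have h1 := congrArg Complex.im h
  simp at h1
  exact absurd h1 z.im_pos.ne'

theorem coe_inv (c t : ℝ) (hc : c ≠ 0) (z : ℍ) :
    ((inv c t hc • z : ℍ) : ℂ) = t - ((c : ℂ) ^ 2)⁻¹ / ((z : ℂ) - t) := by
  rw [UpperHalfPlane.coe_specialLinearGroup_apply]
  have h1 := sub_real_ne_zero z t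
  have h2 : (c : ℂ) ≠ 0 := by exact_mod_cast hc
  simp only [inv]
  simp
  have h3 : (c : ℂ) * z + -(c * t) = c * (z - t) := by ring
  rw [h3]
  generalize (z : ℂ) = w at h1 ⊢
  obtain ⟨u, rfl⟩ : ∃ u, w = u + t := ⟨w - t, by ring⟩
  have h4 : u ≠ 0 := by simpa using h1
  rw [add_sub_cancel_right]
  field_simp
  ring

theorem coe_dil (c : ℝ) (hc : c ≠ 0) (z : ℍ) :
    ((dil c hc • z : ℍ) : ℂ) = (c : ℂ) ^ 2 * z := by
  rw [UpperHalfPlane.coe_specialLinearGroup_apply]
  have h2 : (c : ℂ) ≠ 0 := by exact_mod_cast hc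
  simp only [dil]
  simp
  field_simp

/-- The abstract part: involutions `U S` and a map `H` playing ping-pong. -/
theorem labelling_of_ping_pong {X I : Type} [Nonempty I] (V : Set (Set I))
    (hV : ∀ S ∈ V, ∀ T ∈ V, S ≠ T → ∀ b : Bool, ∃ j, (j ∈ S ↔ ¬ S ⊆ T) ∧ (j ∈ T ↔ b = true))
    (hV0 : ∀ S ∈ V, ∀ b : Bool, ∃ j, j ∈ S ↔ b = true)
    (U : V → X → X) (H : X ≃ X) (hUU : ∀ S x, U S (U S x) = x)
    (A B : V → Set X) (Dm Dp : Set X)
    (hAB : ∀ S x, U S x ∈ A S ↔ x ∉ B S)
    (hA : ∀ S T x, x ∈ A S → x ∈ A T → S = T)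
    (hB : ∀ S T x, x ∈ B S → x ∈ B T → S = T)
    (hBm : ∀ S x, x ∈ B S → x ∉ Dm) (hBp : ∀ S x, x ∈ B S → x ∉ Dp)
    (hmp : ∀ x, x ∈ Dm → x ∉ Dp)
    (hH : ∀ x, H x ∈ Dp ↔ x ∉ Dm)
    (hHper : ∀ x (k : ℕ), 0 < k → H^[k] x ≠ x) :
    ∃ (φ : X → I) (E : Set X), (∀ y, y ∈ E ↔ H y ∉ E) ∧
      ∀ (S : V) (x : X), φ x ∈ (S : Set I) ↔ U S x ∈ E := by
  classical
  obtain ⟨j₀⟩ := (inferInstance : Nonempty I)
  let p : X ⊕ X → X ⊕ X := fun n => match n with
    | Sum.inl x => if h : ∃ S, x ∈ A S then Sum.inr (U h.choose x) else Sum.inl x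
    | Sum.inr y => if h : ∃ S, y ∈ B S then Sum.inl (U h.choose y) else
        if y ∈ Dm then Sum.inr (H y) else if y ∈ Dp then Sum.inr (H.symm y) else Sum.inr y
  have pl1 : ∀ S x, x ∈ A S → p (Sum.inl x) = Sum.inr (U S x) := by
    intro S x hx
    have h : ∃ S, x ∈ A S := ⟨S, hx⟩
    have e : h.choose = S := hA _ _ x h.choose_spec hx
    simp only [p, dif_pos h, e]
  have pl2 : ∀ x, (¬ ∃ S, x ∈ A S) → p (Sum.inl x) = Sum.inl x := by
    intro x h
    simp only [p, dif_neg h]
  have pr1 : ∀ S y, y ∈ B S → p (Sum.inr y) = Sum.inl (U S y) := by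
    intro S x hx
    have h : ∃ S, x ∈ B S := ⟨S, hx⟩
    have e : h.choose = S := hB _ _ x h.choose_spec hx
    simp only [p, dif_pos h, e]
  have pr2 : ∀ y, y ∈ Dm → p (Sum.inr y) = Sum.inr (H y) := by
    intro y hy
    have h : ¬ ∃ S, y ∈ B S := fun ⟨S, h⟩ => hBm S y h hy
    simp only [p, dif_neg h, if_pos hy]
  have pr3 : ∀ y, y ∈ Dp → p (Sum.inr y) = Sum.inr (H.symm y) := by
    intro y hy
    have h : ¬ ∃ S, y ∈ B S := fun ⟨S, h⟩ => hBp S y h hy
    have h' : y ∉ Dm := fun h' => hmp y h' hy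
    simp only [p, dif_neg h, if_neg h', if_pos hy]
  have pr4 : ∀ y, (¬ ∃ S, y ∈ B S) → y ∉ Dm → y ∉ Dp → p (Sum.inr y) = Sum.inr y := by
    intro y h h1 h2
    simp only [p, dif_neg h, if_neg h1, if_neg h2]
  let C : X ⊕ X → I × Bool → I × Bool → Prop := fun n l l' => match n with
    | Sum.inl x => ∀ S : V, x ∈ A S → (l.1 ∈ (S : Set I) ↔ l'.2 = true)
    | Sum.inr y => (∀ S : V, y ∈ B S → (l'.1 ∈ (S : Set I) ↔ l.2 = true)) ∧
        ((y ∈ Dm ∨ y ∈ Dp) → l.2 = !l'.2)
  have h1 : ∀ n l', ∃ l, C n l l' := by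
    rintro (x | y) l'
    · by_cases h : ∃ S, x ∈ A S
      · obtain ⟨S, hS⟩ := h
        obtain ⟨j, hj⟩ := hV0 S S.2 l'.2
        refine ⟨(j, true), fun T hT => ?_⟩
        rw [hA T S x hT hS]
        exact hj
      · exact ⟨(j₀, true), fun T hT => absurd ⟨T, hT⟩ h⟩
    · by_cases h : ∃ S, y ∈ B S
      · obtain ⟨S, hS⟩ := h
        refine ⟨(j₀, decide (l'.1 ∈ (S : Set I))), fun T hT => ?_, fun h' => ?_⟩
        · rw [hB T S y hT hS]
          simp
        · rcases h' with h' | h'
          · exact absurd h' (hBm S y hS)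
          · exact absurd h' (hBp S y hS)
      · exact ⟨(j₀, !l'.2), fun T hT => absurd ⟨T, hT⟩ h, fun _ => rfl⟩
  have h2 : ∀ n l, ∃ l', C n l l' := by
    rintro (x | y) l
    · by_cases h : ∃ S, x ∈ A S
      · obtain ⟨S, hS⟩ := h
        refine ⟨(j₀, decide (l.1 ∈ (S : Set I))), fun T hT => ?_⟩
        rw [hA T S x hT hS]
        simp
      · exact ⟨(j₀, true), fun T hT => absurd ⟨T, hT⟩ h⟩
    · by_cases h : ∃ S, y ∈ B S
      · obtain ⟨S, hS⟩ := h
        obtain ⟨j, hj⟩ := hV0 S S.2 l.2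
        refine ⟨(j, true), fun T hT => ?_, fun h' => ?_⟩
        · rw [hB T S y hT hS]
          exact hj
        · rcases h' with h' | h'
          · exact absurd h' (hBm S y hS)
          · exact absurd h' (hBp S y hS)
      · exact ⟨(j₀, !l.2), fun T hT => absurd ⟨T, hT⟩ h, fun _ => by simp⟩
  have h3 : ∀ n k, 0 < k → p^[k] n = n → ∃ (i : ℕ) (δ : I × Bool),
      (p (p^[i] n) = p^[i] n ∧ C (p^[i] n) δ δ) ∨
      (p (p^[i] n) ≠ p^[i] n ∧ ∀ l₁, ∃ l, C (p^[i] n) δ l ∧ C (p (p^[i] n)) l l₁) := by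
    intro n k hk hkn
    -- roots
    by_cases hroot : ∃ i, (∃ x, p^[i] n = Sum.inl x ∧ ¬ ∃ S, x ∈ A S) ∨
        (∃ y, p^[i] n = Sum.inr y ∧ (¬ ∃ S, y ∈ B S) ∧ y ∉ Dm ∧ y ∉ Dp)
    · obtain ⟨i, hi⟩ := hroot
      refine ⟨i, (j₀, true), Or.inl ?_⟩
      rcases hi with ⟨x, hx, hS⟩ | ⟨y, hy, hS, hy1, hy2⟩
      · rw [hx]
        exact ⟨pl2 x hS, fun S hS' => absurd ⟨S, hS'⟩ hS⟩
      · rw [hy]
        refine ⟨pr4 y hS hy1 hy2, fun S hS' => absurd ⟨S, hS'⟩ hS, fun h => ?_⟩
        rcases h with h | h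
        · exact absurd h hy1
        · exact absurd h hy2
    push Not at hroot
    by_cases hinl : ∃ i x, p^[i] n = Sum.inl x
    · obtain ⟨i, x, hx⟩ := hinl
      have hik : p (p^[i + (k - 1)] n) = Sum.inl x := by
        rw [← Function.iterate_succ_apply' p]
        have : (i + (k - 1)).succ = i + k := by omega
        rw [this, Function.iterate_add_apply, hkn, hx]
      obtain ⟨S', hS'⟩ := (hroot i).1 x hx
      rcases hpred : p^[i + (k - 1)] n with x' | y
      · exfalso
        obtain ⟨S, hS⟩ := (hroot _).1 x' hpred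
        rw [hpred, pl1 S x' hS] at hik
        exact absurd hik (by simp)
      · have hy := (hroot _).2 y hpred
        rw [hpred] at hik
        -- `y ∈ B S`
        have hyB : ∃ S, y ∈ B S := by
          by_contra hno
          have h3 := hy (fun S hS => hno ⟨S, hS⟩)
          by_cases hm : y ∈ Dm
          · rw [pr2 y hm] at hik
            exact absurd hik (by simp)
          · rw [pr3 y (h3 hm)] at hik
            exact absurd hik (by simp)
        obtain ⟨S, hS⟩ := hyB
        have hxy : U S y = x := by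
          rw [pr1 S y hS] at hik
          exact Sum.inl_injective hik
        have hne : S ≠ S' := by
          rintro rfl
          rw [← hxy] at hS'
          exact (hAB S y).1 hS' hS
        refine ⟨i + (k - 1), (j₀, decide (¬ (S : Set I) ⊆ S')), Or.inr ⟨?_, fun l₁ => ?_⟩⟩
        · rw [hpred, hik]
          simp
        · rw [hpred, hik]
          obtain ⟨j, hj1, hj2⟩ := hV S S.2 S' S'.2 (fun h => hne (Subtype.ext h)) l₁.2
          refine ⟨(j, true), ⟨fun T hT => ?_, fun h => ?_⟩, fun T hT => ?_⟩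
          · rw [hB T S y hT hS]
            simpa using hj1
          · rcases h with h | h
            · exact absurd h (hBm S y hS)
            · exact absurd h (hBp S y hS)
          · rw [hA T S' x hT hS']
            exact hj2
    · exfalso
      push Not at hinl
      have hinr : ∀ i, ∃ y, p^[i] n = Sum.inr y ∧ (y ∈ Dm ∨ y ∈ Dp) := by
        intro i
        rcases h : p^[i] n with x | y
        · exact absurd h (hinl i x)
        · refine ⟨y, rfl, ?_⟩
          by_contra hno
          push Not at hno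
          by_cases hyB : ∃ S, y ∈ B S
          · obtain ⟨S, hS⟩ := hyB
            apply hinl (i + 1) (U S y)
            rw [Function.iterate_succ_apply', h, pr1 S y hS]
          · exact hno.2 ((hroot i).2 y h (fun S hS => hyB ⟨S, hS⟩) hno.1)
      obtain ⟨y, hy, hD⟩ := hinr 0
      have hy' : n = Sum.inr y := hy
      rcases hD with hD | hD
      · -- always move by `H`
        have hall : ∀ i, p^[i] n = Sum.inr (H^[i] y) ∧ H^[i] y ∈ Dm := by
          intro i
          induction i with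
          | zero => exact ⟨hy, hD⟩
          | succ i ih =>
            have e : p^[i + 1] n = Sum.inr (H^[i + 1] y) := by
              rw [Function.iterate_succ_apply', ih.1, pr2 _ ih.2, Function.iterate_succ_apply']
            refine ⟨e, ?_⟩
            obtain ⟨z, hz, hz'⟩ := hinr (i + 1)
            rw [e] at hz
            have hz2 := Sum.inr_injective hz
            rw [← hz2] at hz'
            rcases hz' with hz' | hz'
            · exact hz'
            · exfalso
              rw [Function.iterate_succ_apply', hH] at hz'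
              exact hz' ih.2
        have h := (hall k).1
        rw [hkn, hy'] at h
        exact hHper y k hk (Sum.inr_injective h).symm
      · have hall : ∀ i, p^[i] n = Sum.inr (H.symm^[i] y) ∧ H.symm^[i] y ∈ Dp := by
          intro i
          induction i with
          | zero => exact ⟨hy, hD⟩
          | succ i ih =>
            have e : p^[i + 1] n = Sum.inr (H.symm^[i + 1] y) := by
              rw [Function.iterate_succ_apply', ih.1, pr3 _ ih.2, Function.iterate_succ_apply']
            refine ⟨e, ?_⟩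
            obtain ⟨z, hz, hz'⟩ := hinr (i + 1)
            rw [e] at hz
            have hz2 := Sum.inr_injective hz
            rw [← hz2] at hz'
            rcases hz' with hz' | hz'
            · exfalso
              rw [Function.iterate_succ_apply'] at hz'
              have h5 := ih.2
              rw [← H.apply_symm_apply (H.symm^[i] y), hH] at h5
              exact h5 hz'
            · exact hz'
        have h := (hall k).1
        rw [hkn, hy'] at h
        have h6 : H.symm^[k] y = y := (Sum.inr_injective h).symm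
        apply hHper y k hk
        have h7 : H^[k] (H.symm^[k] y) = y :=
          (Function.LeftInverse.iterate (fun x => H.apply_symm_apply x) k) y
        rwa [h6] at h7
  obtain ⟨s, hs⟩ := Pool.Agent.R815.FunGraph.exists_labelling p C h1 h2 h3
  refine ⟨fun x => (s (Sum.inl x)).1, {y | (s (Sum.inr y)).2 = true}, ?_, ?_⟩
  · intro y
    show (s (Sum.inr y)).2 = true ↔ ¬ (s (Sum.inr (H y))).2 = true
    by_cases hy : y ∈ Dm
    · have h := (hs (Sum.inr y)).2 (Or.inl hy)
      rw [pr2 y hy] at h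
      rw [h]
      simp
    · have hz : H y ∈ Dp := (hH y).2 hy
      have h := (hs (Sum.inr (H y))).2 (Or.inr hz)
      rw [pr3 _ hz, H.symm_apply_apply] at h
      rw [h]
      simp
  · intro S x
    show (s (Sum.inl x)).1 ∈ (S : Set I) ↔ (s (Sum.inr (U S x))).2 = true
    by_cases hx : x ∈ A S
    · have h := hs (Sum.inl x) S hx
      rwa [pl1 S x hx] at h
    · have hy : U S x ∈ B S := by
        by_contra hno
        apply hx
        have := (hAB S (U S x)).2 hno
        rwa [hUU] at this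
      have h := (hs (Sum.inr (U S x))).1 S hy
      rwa [pr1 S _ hy, hUU] at h

/-- Universal partitions of the hyperbolic plane: for every family `V` of at most continuum many
proper subsets of `I` containing `j₀`, there are a labelling `φ` of the hyperbolic plane by `I`, a
set `E` interchanged with its complement by an isometry `H`, and isometries `U S` taking each
`φ⁻¹ S`, `S ∈ V`, to `E`. -/
theorem exists_universal {I : Type} (j₀ : I) (V : Set (Set I))
    (hV : ∀ S ∈ V, j₀ ∈ S ∧ S ≠ Set.univ) (hcard : #V ≤ Cardinal.continuum) :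
    ∃ (φ : ℍ → I) (E : Set ℍ) (H : ℍ ≃ᵢ ℍ) (U : V → (ℍ ≃ᵢ ℍ)), (∀ y, y ∈ E ↔ H y ∉ E) ∧
      ∀ (S : V) (x : ℍ), φ x ∈ (S : Set I) ↔ U S x ∈ E := by
  classical
  obtain ⟨k, c, W, hk, hkW, hcW⟩ :=
    Pool.Agent.Results.MP_7baebc_gt.ParabolicHalf.exists_valuation
  set v := W.valuation with hv
  have hvk : ∀ t : k, t ≠ 0 → v ((t : ℝ) : ℂ) = 1 := by
    intro t ht
    have h1 : v ((t : ℝ) : ℂ) ≤ 1 := (W.valuation_le_one_iff _).2 (hkW t t.2)
    have h2 : v (((t⁻¹ : k) : ℝ) : ℂ) ≤ 1 := (W.valuation_le_one_iff _).2 (hkW _ (t⁻¹).2)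
    have ht' : ((t : ℝ) : ℂ) ≠ 0 := by
      simpa using ht
    have h3 : v ((t : ℝ) : ℂ) * v (((t⁻¹ : k) : ℝ) : ℂ) = 1 := by
      rw [← map_mul]
      have : ((t : ℝ) : ℂ) * (((t⁻¹ : k) : ℝ) : ℂ) = 1 := by
        push_cast
        exact mul_inv_cancel₀ ht'
      rw [this, map_one]
    apply le_antisymm h1
    by_contra hlt
    rw [not_le] at hlt
    have : v ((t : ℝ) : ℂ) * v (((t⁻¹ : k) : ℝ) : ℂ) < 1 :=
      mul_lt_one_of_lt_of_le hlt h2
    exact absurd h3 this.ne
  have hvc : 1 < v (c : ℂ) := by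
    rw [← not_le]
    intro h
    exact hcW ((W.valuation_le_one_iff _).1 h)
  have hc0 : c ≠ 0 := by
    rintro rfl
    simp at hvc
  have hcC : (c : ℂ) ≠ 0 := by exact_mod_cast hc0
  set q := v ((c : ℂ) ^ 2) with hq
  have hq1 : 1 < q := by
    rw [hq, map_pow]
    exact one_lt_pow₀ hvc two_ne_zero
  have hq0 : q ≠ 0 := (zero_lt_one.trans hq1).ne'
  have hqi : q⁻¹ < 1 := inv_lt_one_of_one_lt₀ hq1
  -- distinct elements of `k` for the members of `V`
  obtain ⟨g⟩ : Nonempty (Option V ↪ k) := by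
    have h : #(Option V) ≤ #k := by
      rw [Cardinal.mk_option, hk]
      exact Cardinal.add_le_of_le Cardinal.aleph0_le_continuum hcard
        (Cardinal.one_le_aleph0.trans Cardinal.aleph0_le_continuum)
    exact h
  let e : V → k := fun S => g (some S) - g none
  have he0 : ∀ S, e S ≠ 0 := by
    intro S h
    have := g.injective (sub_eq_zero.1 h)
    exact absurd this (by simp)
  have hinj : ∀ S T, e S = e T → S = T := by
    intro S T h
    have h1 : g (some S) = g (some T) := sub_left_injective h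
    have := g.injective h1
    simpa using this
  let U : V → (ℍ ≃ᵢ ℍ) := fun S => IsometryEquiv.constSMul (inv c (e S : ℝ) hc0)
  let H : ℍ ≃ᵢ ℍ := IsometryEquiv.constSMul (dil c hc0)
  have hUc : ∀ S (x : ℍ), ((U S x : ℍ) : ℂ) = ((e S : ℝ) : ℂ) - ((c : ℂ) ^ 2)⁻¹ / ((x : ℂ) - (e S : ℝ)) :=
    fun S x => coe_inv c _ hc0 x
  have hHc : ∀ x : ℍ, ((H x : ℍ) : ℂ) = (c : ℂ) ^ 2 * x := fun x => coe_dil c hc0 x
  have hUU : ∀ S (x : ℍ), U S (U S x) = x := by
    intro S x
    apply UpperHalfPlane.ext_iff.2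
    rw [hUc, hUc]
    have h1 := sub_real_ne_zero x (e S : ℝ)
    have h2 : ((c : ℂ) ^ 2) ≠ 0 := pow_ne_zero 2 hcC
    rw [sub_sub_cancel_left, div_neg, sub_neg_eq_add, div_div_cancel₀ (inv_ne_zero h2)]
    ring
  have hvU : ∀ S (x : ℍ), v ((U S x : ℂ) - (e S : ℝ)) = q⁻¹ / v ((x : ℂ) - (e S : ℝ)) := by
    intro S x
    rw [hUc, sub_sub_cancel_left, Valuation.map_neg, map_div₀, map_inv₀]
  have hv0 : ∀ (x : ℍ) (t : ℝ), v ((x : ℂ) - t) ≠ 0 := by
    intro x t
    rw [Valuation.ne_zero_iff]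
    exact sub_real_ne_zero x t
  have hvH : ∀ x : ℍ, v (H x : ℂ) = q * v (x : ℂ) := by
    intro x
    rw [hHc, map_mul]
  have huniq : ∀ S T (x : ℍ), v ((x : ℂ) - (e S : ℝ)) < 1 → v ((x : ℂ) - (e T : ℝ)) < 1 → S = T := by
    intro S T x h1 h2
    by_contra hne
    have h3 : e S - e T ≠ 0 := fun h => hne (hinj S T (sub_eq_zero.1 h))
    have h4 := hvk _ h3
    have h5 : (((e S - e T : k) : ℝ) : ℂ) = ((x : ℂ) - (e T : ℝ)) - ((x : ℂ) - (e S : ℝ)) := by
      push_cast
      ring
    rw [h5] at h4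
    exact absurd h4 (lt_of_le_of_lt (v.map_sub _ _) (max_lt h2 h1)).ne
  have hvone : ∀ S (x : ℍ), v ((x : ℂ) - (e S : ℝ)) < 1 → v (x : ℂ) = 1 := by
    intro S x h
    have h1 := hvk _ (he0 S)
    have h2 : (x : ℂ) = ((e S : ℝ) : ℂ) + ((x : ℂ) - (e S : ℝ)) := by ring
    rw [h2, Valuation.map_add_eq_of_lt_left v (by rw [h1]; exact h), h1]
  obtain ⟨φ, E, hE1, hE2⟩ := by
    haveI : Nonempty I := ⟨j₀⟩
    exact labelling_of_ping_pong (X := ℍ) V (by
      intro S hS T hT hne b
      have hSj := (hV S hS).1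
      have hTj := (hV T hT).1
      by_cases hsub : S ⊆ T
      · rcases b with _ | _
        · -- need a point outside `T`
          obtain ⟨j, hj⟩ := (Set.ne_univ_iff_exists_notMem T).1 (hV T hT).2
          exact ⟨j, by simp only [hsub, not_true_eq_false, iff_false]; exact fun h => hj (hsub h),
            by simpa using hj⟩
        · have hne2 : ¬ T ⊆ S := fun h => hne (Set.Subset.antisymm hsub h)
          obtain ⟨j, hj1, hj2⟩ := Set.not_subset.1 hne2
          exact ⟨j, by simpa [hsub] using hj2, by simpa using hj1⟩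
      · rcases b with _ | _
        · obtain ⟨j, hj1, hj2⟩ := Set.not_subset.1 hsub
          exact ⟨j, by simpa [hsub] using hj1, by simpa using hj2⟩
        · exact ⟨j₀, by simpa [hsub] using hSj, by simpa using hTj⟩) (by
      intro S hS b
      rcases b with _ | _
      · obtain ⟨j, hj⟩ := (Set.ne_univ_iff_exists_notMem S).1 (hV S hS).2
        exact ⟨j, by simpa using hj⟩
      · exact ⟨j₀, by simpa using (hV S hS).1⟩)
      (fun S x => U S x) H.toEquiv hUU
      (fun S => {x | v ((x : ℂ) - (e S : ℝ)) ≤ q⁻¹}) (fun S => {x | v ((x : ℂ) - (e S : ℝ)) < 1})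
      {x | v (x : ℂ) < 1} {x | q ≤ v (x : ℂ)}
      (by
        intro S x
        show v ((U S x : ℂ) - (e S : ℝ)) ≤ q⁻¹ ↔ ¬ v ((x : ℂ) - (e S : ℝ)) < 1
        rw [hvU, not_lt]
        have h := hv0 x (e S : ℝ)
        have h' : 0 < v ((x : ℂ) - (e S : ℝ)) := zero_lt_iff.2 h
        rw [div_le_iff₀ h']
        constructor
        · intro h2
          by_contra h3
          rw [not_le] at h3
          have h4 : q⁻¹ * v ((x : ℂ) - (e S : ℝ)) < q⁻¹ * 1 :=
            mul_lt_mul_of_pos_left h3 (zero_lt_iff.2 (inv_ne_zero hq0))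
          rw [mul_one] at h4
          exact absurd h2 (not_le.2 h4)
        · intro h2
          calc q⁻¹ = q⁻¹ * 1 := (mul_one _).symm
            _ ≤ q⁻¹ * v ((x : ℂ) - (e S : ℝ)) := mul_le_mul_right h2 _)
      (by
        intro S T x h1 h2
        exact huniq S T x (lt_of_le_of_lt h1 hqi) (lt_of_le_of_lt h2 hqi))
      (fun S T x h1 h2 => huniq S T x h1 h2)
      (by
        intro S x h1 h2
        have h3 := hvone S x h1
        have h4 : v (x : ℂ) < 1 := h2
        rw [h3] at h4
        exact lt_irrefl _ h4)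
      (by
        intro S x h1 h2
        have h3 := hvone S x h1
        have h4 : q ≤ v (x : ℂ) := h2
        rw [h3] at h4
        exact absurd hq1 (not_lt.2 h4))
      (by
        intro x h1 h2
        have h3 : v (x : ℂ) < 1 := h1
        have h4 : q ≤ v (x : ℂ) := h2
        exact absurd (h3.trans hq1) (not_lt.2 h4))
      (by
        intro x
        show q ≤ v (H x : ℂ) ↔ ¬ v (x : ℂ) < 1
        rw [hvH, not_lt]
        constructor
        · intro h2
          by_contra h3
          rw [not_le] at h3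
          have h4 : q * v (x : ℂ) < q * 1 := mul_lt_mul_of_pos_left h3 (zero_lt_iff.2 hq0)
          rw [mul_one] at h4
          exact absurd h2 (not_le.2 h4)
        · intro h2
          calc q = q * 1 := (mul_one _).symm
            _ ≤ q * v (x : ℂ) := mul_le_mul_right h2 _)
      (by
        intro x n hn h
        have h1 : ∀ n : ℕ, v ((H.toEquiv^[n] x : ℍ) : ℂ) = q ^ n * v (x : ℂ) := by
          intro n
          induction n with
          | zero => simp
          | succ n ih =>
            rw [Function.iterate_succ_apply']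
            have : v ((H (H.toEquiv^[n] x) : ℍ) : ℂ) = q * v ((H.toEquiv^[n] x : ℍ) : ℂ) := hvH _
            rw [show H.toEquiv (H.toEquiv^[n] x) = H (H.toEquiv^[n] x) from rfl, this, ih,
              pow_succ', mul_assoc]
        have h2 := h1 n
        rw [h] at h2
        have h3 : v (x : ℂ) ≠ 0 := by
          rw [Valuation.ne_zero_iff]
          exact UpperHalfPlane.ne_zero x
        have h4 : q ^ n = 1 := by
          have h5 : q ^ n * v (x : ℂ) = 1 * v (x : ℂ) := by rw [one_mul]; exact h2.symm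
          exact mul_right_cancel₀ h3 h5
        exact absurd h4 (one_lt_pow₀ hq1 hn.ne').ne')
  exact ⟨φ, E, H, U, hE1, hE2⟩

end Pool.Agent.R815.Congruences
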