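import Mathlib

/-!
# Labelling functional graphs

A labelling problem on a functional graph `p : N → N`, with a compatibility relation `C n l l'`
between the label `l` of `n` and the label `l'` of `p n`, can be solved if labels can be extended
along the edges in both directions and cycles can be closed up.
-/

set_option autoImplicit false

namespace Pool.Agent.R815.FunGraph

variable {N L : Type*}

/-- Extension of a labelling of a core `K` to all points which are eventually mapped into `K`. -/
theorem extend_core [Nonempty L] (p : N → N) (C D : N → L → L → Prop)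
    (hDC : ∀ n l l', D n l l' → C n l l') (hD : ∀ n l', ∃ l, D n l l')
    (K : Set N) (κ : N → L)
    (hK : ∀ n ∈ K, (p n ∈ K ∧ C n (κ n) (κ (p n))) ∨
      (p n ∉ K ∧ (∃ m, p^[m] (p n) ∈ K) ∧ ∀ l l', D (p n) l l' → C n (κ n) l)) :
    ∃ s : N → L, ∀ n, (∃ m, p^[m] n ∈ K) → C n (s n) (s (p n)) := by
  classical
  choose ch hch using hD
  let G : ℕ → N → L := fun k => Nat.rec (fun n => κ n) (fun _ g n => ch n (g (p n))) k
  have G0 : ∀ n, G 0 n = κ n := fun n => rfl
  have G1 : ∀ k n, G (k + 1) n = ch n (G k (p n)) := fun k n => rfl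
  let s : N → L := fun n => if h : ∃ m, p^[m] n ∈ K then G (Nat.find h) n else κ n
  have hs : ∀ n (h : ∃ m, p^[m] n ∈ K), s n = G (Nat.find h) n := by
    intro n h
    simp only [s, dif_pos h]
  have hs0 : ∀ n ∈ K, s n = κ n := by
    intro n hn
    have h : ∃ m, p^[m] n ∈ K := ⟨0, hn⟩
    rw [hs n h]
    have : Nat.find h = 0 := by rw [Nat.find_eq_zero]; exact hn
    rw [this, G0]
  have hs1 : ∀ n, n ∉ K → (∃ m, p^[m] n ∈ K) → s n = ch n (s (p n)) := by
    intro n hn h
    have h' : ∃ m, p^[m] (p n) ∈ K := by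
      obtain ⟨m, hm⟩ := h
      rcases m with _ | m
      · exact absurd hm hn
      · exact ⟨m, by rwa [Function.iterate_succ_apply] at hm⟩
    rw [hs n h, hs (p n) h', ← G1]
    have e : Nat.find h = Nat.find h' + 1 := ?_
    · rw [e]
    rw [Nat.find_eq_iff]
    constructor
    · rw [Function.iterate_succ_apply]
      exact Nat.find_spec h'
    · intro j hj
      rcases j with _ | j
      · exact hn
      · rw [Function.iterate_succ_apply]
        exact Nat.find_min h' (by omega)
  refine ⟨s, fun n h => ?_⟩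
  by_cases hn : n ∈ K
  · rcases hK n hn with h1 | h1
    · rw [hs0 n hn, hs0 _ h1.1]
      exact h1.2
    · obtain ⟨h2, h3, h4⟩ := h1
      rw [hs0 n hn, hs1 _ h2 h3]
      exact h4 _ _ (hch _ _)
  · rw [hs1 n hn h]
    exact hDC _ _ _ (hch _ _)

/-- The labelling lemma for functional graphs. -/
theorem exists_labelling [Nonempty L] (p : N → N) (C : N → L → L → Prop)
    (h1 : ∀ n l', ∃ l, C n l l') (h2 : ∀ n l, ∃ l', C n l l')
    (h3 : ∀ n k, 0 < k → p^[k] n = n → ∃ (i : ℕ) (δ : L),
      (p (p^[i] n) = p^[i] n ∧ C (p^[i] n) δ δ) ∨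
      (p (p^[i] n) ≠ p^[i] n ∧ ∀ l₁, ∃ l, C (p^[i] n) δ l ∧ C (p (p^[i] n)) l l₁)) :
    ∃ s : N → L, ∀ n, C n (s n) (s (p n)) := by
  classical
  -- labelling of one component
  have key : ∀ n₀ : N, ∃ s : N → L, ∀ n, (∃ a b, p^[a] n = p^[b] n₀) → C n (s n) (s (p n)) := by
    intro n₀
    by_cases hper : ∃ n, (∃ a b, p^[a] n = p^[b] n₀) ∧ ∃ k, 0 < k ∧ p^[k] n = n
    · obtain ⟨n₁, ⟨a, b, hab⟩, k, hk, hkn⟩ := hper
      obtain ⟨i, δ, hδ⟩ := h3 n₁ k hk hkn
      set r := p^[i] n₁ with hr
      have hrk : p^[k] r = r := by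
        rw [hr, ← Function.iterate_add_apply, Nat.add_comm, Function.iterate_add_apply, hkn]
      have hrmul : ∀ j, p^[k * j] r = r := by
        intro j
        induction j with
        | zero => simp
        | succ j ih => rw [Nat.mul_succ, Function.iterate_add_apply, hrk, ih]
      -- every point of the component is eventually mapped to `r`
      have hreach : ∀ n, (∃ a b, p^[a] n = p^[b] n₀) → ∃ m, p^[m] n = r := by
        rintro n ⟨a', b', hab'⟩
        -- p^[a' + b] n = p^[a + b'] n₁
        have e1 : p^[b + a'] n = p^[b' + a] n₁ := by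
          rw [Function.iterate_add_apply, hab', Function.iterate_add_apply, hab,
            ← Function.iterate_add_apply, ← Function.iterate_add_apply, Nat.add_comm]
        -- p^[j] n₁ reaches r
        have hn1mul : ∀ j, p^[k * j] n₁ = n₁ := by
          intro j
          induction j with
          | zero => simp
          | succ j ih => rw [Nat.mul_succ, Function.iterate_add_apply, hkn, ih]
        obtain ⟨q, hq⟩ : ∃ q, b' + a ≤ k * q := ⟨b' + a, by nlinarith⟩
        refine ⟨i + ((k * q - (b' + a)) + (b + a')), ?_⟩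
        rw [Function.iterate_add_apply, Function.iterate_add_apply, e1,
          ← Function.iterate_add_apply p (k * q - (b' + a)), Nat.sub_add_cancel hq, hn1mul]
      have hmem : ∀ n, (∃ a b, p^[a] n = p^[b] n₀) → ∃ m, p^[m] n ∈ ({r} : Set N) := by
        intro n hn
        obtain ⟨m, hm⟩ := hreach n hn
        exact ⟨m, hm⟩
      rcases hδ with ⟨hδ1, hδ2⟩ | ⟨hδ1, hδ2⟩
      · obtain ⟨s, hs⟩ := extend_core p C C (fun _ _ _ h => h) h1 {r} (fun _ => δ) (by
          rintro n rfl
          exact Or.inl ⟨hδ1, hδ2⟩)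
        exact ⟨s, fun n hn => hs n (hmem n hn)⟩
      · obtain ⟨s, hs⟩ := extend_core p C (fun n l l' => C n l l' ∧ (n = p r → C r δ l))
          (fun _ _ _ h => h.1) (by
            intro n l'
            by_cases hn : n = p r
            · obtain ⟨l, hl1, hl2⟩ := hδ2 l'
              exact ⟨l, by rw [hn]; exact hl2, fun _ => hl1⟩
            · obtain ⟨l, hl⟩ := h1 n l'
              exact ⟨l, hl, fun h => absurd h hn⟩) {r} (fun _ => δ) (by
            rintro n rfl
            refine Or.inr ⟨hδ1, ?_, fun l l' h => h.2 rfl⟩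
            refine ⟨k - 1, ?_⟩
            rw [← Function.iterate_succ_apply]
            have : (k - 1).succ = k := by omega
            rw [this]
            exact hrk)
        exact ⟨s, fun n hn => hs n (hmem n hn)⟩
    · push Not at hper
      -- the ray of `n₀`
      have hinj : ∀ i j, p^[i] n₀ = p^[j] n₀ → i = j := by
        have aux : ∀ i j, i < j → p^[i] n₀ ≠ p^[j] n₀ := by
          intro i j hij h
          refine hper (p^[i] n₀) ⟨0, i, rfl⟩ (j - i) (by omega) ?_
          rw [← Function.iterate_add_apply, Nat.sub_add_cancel hij.le, ← h]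
        intro i j h
        rcases lt_trichotomy i j with h' | h' | h'
        · exact absurd h (aux i j h')
        · exact h'
        · exact absurd h.symm (aux j i h')
      choose up hup using h2
      let f : ℕ → L := fun k => Nat.rec (Classical.arbitrary L) (fun k l => up (p^[k] n₀) l) k
      have hf : ∀ k, C (p^[k] n₀) (f k) (f (k + 1)) := fun k => hup _ _
      let κ : N → L := fun n => if h : ∃ i, p^[i] n₀ = n then f h.choose else Classical.arbitrary L
      have hκ : ∀ i, κ (p^[i] n₀) = f i := by
        intro i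
        have h : ∃ i', p^[i'] n₀ = p^[i] n₀ := ⟨i, rfl⟩
        have e : κ (p^[i] n₀) = f h.choose := by simp only [κ, dif_pos h]
        rw [e, hinj _ _ h.choose_spec]
      obtain ⟨s, hs⟩ := extend_core p C C (fun _ _ _ h => h) h1 {n | ∃ i, p^[i] n₀ = n} κ (by
        rintro n ⟨i, rfl⟩
        have e : p (p^[i] n₀) = p^[i + 1] n₀ := (Function.iterate_succ_apply' p i n₀).symm
        refine Or.inl ⟨⟨i + 1, e.symm⟩, ?_⟩
        rw [e, hκ, hκ]
        exact hf i)
      refine ⟨s, fun n hn => hs n ?_⟩
      obtain ⟨a, b, hab⟩ := hn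
      exact ⟨a, b, hab.symm⟩
  -- glue the components
  let R : N → N → Prop := fun n m => ∃ a b, p^[a] n = p^[b] m
  have hR : Equivalence R := by
    refine ⟨fun n => ⟨0, 0, rfl⟩, fun {n m} ⟨a, b, h⟩ => ⟨b, a, h.symm⟩, ?_⟩
    rintro n m q ⟨a, b, h⟩ ⟨a', b', h'⟩
    refine ⟨a' + a, b + b', ?_⟩
    rw [Function.iterate_add_apply, h, ← Function.iterate_add_apply, Nat.add_comm,
      Function.iterate_add_apply, h', ← Function.iterate_add_apply]
  let S : Setoid N := ⟨R, hR⟩
  choose s hs using key
  refine ⟨fun n => s (Quotient.out (Quotient.mk S n)) n, fun n => ?_⟩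
  have e : Quotient.mk S (p n) = Quotient.mk S n := Quotient.sound ⟨0, 1, rfl⟩
  show C n (s (Quotient.out (Quotient.mk S n)) n) (s (Quotient.out (Quotient.mk S (p n))) (p n))
  rw [e]
  apply hs
  have h := Quotient.exact (Quotient.out_eq (Quotient.mk S n))
  obtain ⟨a, b, hab⟩ := h
  exact ⟨b, a, hab.symm⟩

end Pool.Agent.R815.FunGraph
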