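import Pool.Agent.R815.Unicoherence

/-!
# Two spheres glued at both poles, and the quotient by the antipodal map
-/

set_option autoImplicit false

namespace Pool.Agent.R815.Necklace

open Topology

/-- two spheres glued at their poles -/
def X : Set (ℂ × ℝ × ℝ) := {p | ‖p.1‖ ^ 2 + p.2.1 ^ 2 = 1 ∧ p.2.2 ^ 2 = ‖p.1‖ ^ 2}

/-- the map identifying `(w, s, t)` with `(-w, -s, t)` -/
noncomputable def F (p : ℂ × ℝ × ℝ) : ℂ × ℂ × ℝ := (p.1 ^ 2, p.1 * (p.2.1 : ℂ), p.2.2)

/-- the quotient -/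
def Y : Set (ℂ × ℂ × ℝ) := F '' X

/-- the covering map -/
noncomputable def f (p : X) : Y := ⟨F p, Set.mem_image_of_mem F p.2⟩

theorem continuous_F : Continuous F := by
  unfold F
  fun_prop

theorem continuous_f : Continuous f := (continuous_F.comp continuous_subtype_val).subtype_mk _

theorem surjective_f : Function.Surjective f := by
  rintro ⟨y, x, hx, rfl⟩
  exact ⟨⟨x, hx⟩, rfl⟩

/-- the involution -/
def sig (p : X) : X := ⟨(-p.1.1, -p.1.2.1, p.1.2.2), by
  obtain ⟨h1, h2⟩ := p.2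
  constructor
  · show ‖-p.1.1‖ ^ 2 + (-p.1.2.1) ^ 2 = 1
    rw [norm_neg, neg_sq]
    exact h1
  · show p.1.2.2 ^ 2 = ‖-p.1.1‖ ^ 2
    rw [norm_neg]
    exact h2⟩

theorem continuous_sig : Continuous sig := by
  unfold sig
  fun_prop

theorem sig_sig (p : X) : sig (sig p) = p := by
  apply Subtype.ext
  show ((- -p.1.1, - -p.1.2.1, p.1.2.2) : ℂ × ℝ × ℝ) = p.1
  rw [neg_neg, neg_neg]

theorem f_sig (p : X) : f (sig p) = f p := by
  apply Subtype.ext
  show F (-p.1.1, -p.1.2.1, p.1.2.2) = F p.1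
  simp [F]

theorem f_eq {p q : X} (h : f p = f q) : p = q ∨ p = sig q := by
  obtain ⟨⟨w, s, t⟩, h1, h2⟩ := p
  obtain ⟨⟨w', s', t'⟩, h1', h2'⟩ := q
  have h3 : F (w, s, t) = F (w', s', t') := congrArg Subtype.val h
  simp only [F, Prod.mk.injEq] at h3
  obtain ⟨ha, hb, hc⟩ := h3
  simp only at h1 h2 h1' h2'
  subst hc
  rcases sq_eq_sq_iff_eq_or_eq_neg.1 ha with rfl | rfl
  · by_cases hw : w = 0
    · subst hw
      simp only [norm_zero] at h1 h1' h2
      have hs : s ^ 2 = s' ^ 2 := by linarith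
      rcases sq_eq_sq_iff_eq_or_eq_neg.1 hs with rfl | rfl
      · exact Or.inl rfl
      · right
        apply Subtype.ext
        simp [sig]
    · have := mul_left_cancel₀ hw hb
      have hs : s = s' := by exact_mod_cast this
      subst hs
      exact Or.inl rfl
  · by_cases hw : w' = 0
    · subst hw
      simp only [norm_zero, neg_zero] at h1 h1' h2
      have hs : s ^ 2 = s' ^ 2 := by linarith
      rcases sq_eq_sq_iff_eq_or_eq_neg.1 hs with rfl | rfl
      · left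
        apply Subtype.ext
        simp
      · right
        apply Subtype.ext
        simp [sig]
    · have h4 : w' * (-(s : ℂ)) = w' * s' := by
        rw [← hb]
        ring
      have := mul_left_cancel₀ hw h4
      have hs : -s = s' := by exact_mod_cast this
      subst hs
      right
      apply Subtype.ext
      simp [sig]

theorem one_lt_dist_sig (p : X) : 1 < dist p (sig p) := by
  obtain ⟨⟨w, s, t⟩, h1, h2⟩ := p
  simp only at h1 h2
  have h3 : dist (⟨(w, s, t), h1, h2⟩ : X) (sig ⟨(w, s, t), h1, h2⟩)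
      = dist ((w, s, t) : ℂ × ℝ × ℝ) (-w, -s, t) := rfl
  rw [h3, Prod.dist_eq, Prod.dist_eq]
  simp only
  by_contra hno
  rw [not_lt] at hno
  have ha : dist w (-w) ≤ 1 := (le_max_left _ _).trans hno
  have hb : dist s (-s) ≤ 1 := ((le_max_left _ _).trans (le_max_right _ _)).trans hno
  rw [dist_eq_norm, sub_neg_eq_add, ← two_mul, norm_mul] at ha
  rw [dist_eq_norm, sub_neg_eq_add, ← two_mul, Real.norm_eq_abs, abs_mul] at hb
  simp at ha hb
  have hs : s ^ 2 ≤ (1 / 2) ^ 2 := by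
    rw [← sq_abs s]
    apply pow_le_pow_left₀ (abs_nonneg s)
    linarith
  have hw : ‖w‖ ^ 2 ≤ (1 / 2) ^ 2 := by
    apply pow_le_pow_left₀ (norm_nonneg w)
    linarith
  linarith

instance : CompactSpace X := by
  rw [← isCompact_iff_compactSpace]
  apply Metric.isCompact_of_isClosed_isBounded
  · unfold X
    apply IsClosed.inter
    · exact isClosed_eq (by fun_prop) (by fun_prop)
    · exact isClosed_eq (by fun_prop) (by fun_prop)
  · rw [Metric.isBounded_iff_subset_closedBall 0]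
    refine ⟨1, ?_⟩
    rintro ⟨w, s, t⟩ ⟨h1, h2⟩
    simp only at h1 h2
    rw [mem_closedBall_zero_iff, Prod.norm_def, Prod.norm_def]
    simp only [sup_le_iff]
    have hw : ‖w‖ ≤ 1 := by
      rw [← abs_of_nonneg (norm_nonneg w)]
      exact (sq_le_one_iff_abs_le_one _).1 (by nlinarith)
    refine ⟨hw, ?_, ?_⟩
    · rw [Real.norm_eq_abs]
      exact (sq_le_one_iff_abs_le_one _).1 (by nlinarith [norm_nonneg w])
    · rw [Real.norm_eq_abs]
      exact (sq_le_one_iff_abs_le_one _).1 (by nlinarith [norm_nonneg w])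

/-- parametrisation by `ℝ × circle` -/
noncomputable def par (q : ℝ × Circle) : X :=
  ⟨((Real.sin q.1 : ℂ) * (q.2 : ℂ), Real.cos q.1, Real.sin q.1), by
    constructor
    · show ‖(Real.sin q.1 : ℂ) * (q.2 : ℂ)‖ ^ 2 + (Real.cos q.1) ^ 2 = 1
      rw [norm_mul, Circle.norm_coe, mul_one, Complex.norm_real, Real.norm_eq_abs, sq_abs]
      exact Real.sin_sq_add_cos_sq _
    · show (Real.sin q.1) ^ 2 = ‖(Real.sin q.1 : ℂ) * (q.2 : ℂ)‖ ^ 2
      rw [norm_mul, Circle.norm_coe, mul_one, Complex.norm_real, Real.norm_eq_abs, sq_abs]⟩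

theorem continuous_par : Continuous par := by
  unfold par
  fun_prop

theorem exists_par (p : X) : ∃ u : Circle, p.1.1 = (p.1.2.2 : ℂ) * u := by
  obtain ⟨⟨w, s, t⟩, h1, h2⟩ := p
  simp only at h1 h2 ⊢
  by_cases ht : t = 0
  · subst ht
    refine ⟨1, ?_⟩
    have : ‖w‖ = 0 := by
      have h3 : ‖w‖ ^ 2 = 0 := by rw [← h2]; ring
      exact pow_eq_zero_iff two_ne_zero |>.1 h3
    rw [norm_eq_zero.1 this]
    simp
  · have ht' : (t : ℂ) ≠ 0 := by exact_mod_cast ht
    refine ⟨⟨w / t, ?_⟩, ?_⟩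
    · rw [Submonoid.unitSphere, ← SetLike.mem_coe]
      show w / t ∈ Metric.sphere (0 : ℂ) 1
      rw [mem_sphere_zero_iff_norm, norm_div, Complex.norm_real, Real.norm_eq_abs]
      have h3 : ‖w‖ = |t| := by
        rw [← abs_of_nonneg (norm_nonneg w)]
        exact ((sq_eq_sq_iff_abs_eq_abs _ _).1 h2).symm
      rw [h3, div_self (abs_ne_zero.2 ht)]
    · show w = t * (w / t)
      field_simp

theorem par_surj (p : X) (θ : ℝ) (h1 : p.1.2.1 = Real.cos θ) (h2 : p.1.2.2 = Real.sin θ) :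
    ∃ u, par (θ, u) = p := by
  obtain ⟨u, hu⟩ := exists_par p
  refine ⟨u, ?_⟩
  apply Subtype.ext
  show (((Real.sin θ : ℂ) * (u : ℂ), Real.cos θ, Real.sin θ) : ℂ × ℝ × ℝ) = p.1
  rw [← h1, ← h2]
  exact Prod.ext hu.symm rfl

theorem par_image {a b : ℝ} {S : Set X} (h1 : ∀ θ ∈ Set.Icc a b, ∀ u, par (θ, u) ∈ S)
    (h2 : ∀ p ∈ S, ∃ θ ∈ Set.Icc a b, p.1.2.1 = Real.cos θ ∧ p.1.2.2 = Real.sin θ) :
    par '' (Set.Icc a b ×ˢ Set.univ) = S := by
  ext p
  constructor
  · rintro ⟨⟨θ, u⟩, ⟨hθ, -⟩, rfl⟩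
    exact h1 θ hθ u
  · intro hp
    obtain ⟨θ, hθ, ha, hb⟩ := h2 p hp
    obtain ⟨u, hu⟩ := par_surj p θ ha hb
    exact ⟨(θ, u), ⟨hθ, trivial⟩, hu⟩

theorem sq_add_sq (p : X) : p.1.2.1 ^ 2 + p.1.2.2 ^ 2 = 1 := by
  obtain ⟨h1, h2⟩ := p.2
  linarith

/-- the first sphere -/
def A : Set X := {p | 0 ≤ p.1.2.2}

/-- the second sphere -/
def B : Set X := {p | p.1.2.2 ≤ 0}

theorem isClosed_A : IsClosed A := isClosed_le (by fun_prop) (by fun_prop)

theorem isClosed_B : IsClosed B := isClosed_le (by fun_prop) (by fun_prop)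

theorem par_A : par '' (Set.Icc 0 Real.pi ×ˢ Set.univ) = A := by
  apply par_image
  · intro θ hθ u
    show 0 ≤ Real.sin θ
    exact Real.sin_nonneg_of_nonneg_of_le_pi hθ.1 hθ.2
  · intro p hp
    have h := sq_add_sq p
    have hp' : 0 ≤ p.1.2.2 := hp
    refine ⟨Real.arccos p.1.2.1, ⟨Real.arccos_nonneg _, Real.arccos_le_pi _⟩, ?_, ?_⟩
    · rw [Real.cos_arccos] <;> nlinarith
    · rw [Real.sin_arccos]
      rw [show 1 - p.1.2.1 ^ 2 = p.1.2.2 ^ 2 by linarith, Real.sqrt_sq hp']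

theorem par_B : par '' (Set.Icc (-Real.pi) 0 ×ˢ Set.univ) = B := by
  apply par_image
  · intro θ hθ u
    show Real.sin θ ≤ 0
    exact Real.sin_nonpos_of_nonpos_of_neg_pi_le hθ.2 hθ.1
  · intro p hp
    have h := sq_add_sq p
    have hp' : p.1.2.2 ≤ 0 := hp
    refine ⟨-Real.arccos p.1.2.1, ⟨neg_le_neg (Real.arccos_le_pi _),
      neg_nonpos.2 (Real.arccos_nonneg _)⟩, ?_, ?_⟩
    · rw [Real.cos_neg, Real.cos_arccos] <;> nlinarith
    · rw [Real.sin_neg, Real.sin_arccos]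
      rw [show 1 - p.1.2.1 ^ 2 = (-p.1.2.2) ^ 2 by linarith, Real.sqrt_sq (by linarith)]
      ring

theorem isConnected_A : IsConnected A := by
  rw [← par_A]
  exact ((isConnected_Icc Real.pi_pos.le).prod isConnected_univ).image _
    continuous_par.continuousOn

theorem isConnected_B : IsConnected B := by
  rw [← par_B]
  exact ((isConnected_Icc (by linarith [Real.pi_pos])).prod isConnected_univ).image _
    continuous_par.continuousOn

theorem A_union_B : A ∪ B = Set.univ := by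
  ext p
  simp only [Set.mem_union, Set.mem_univ, iff_true]
  exact le_total (0 : ℝ) p.1.2.2

/-- the pole `s = 1` -/
def north : X := ⟨(0, 1, 0), by simp [X]⟩

/-- the pole `s = -1` -/
def south : X := ⟨(0, -1, 0), by simp [X]⟩

instance : ConnectedSpace X := by
  rw [connectedSpace_iff_univ, ← A_union_B]
  exact IsConnected.union ⟨north, show (0 : ℝ) ≤ 0 from le_rfl, show (0 : ℝ) ≤ 0 from le_rfl⟩
    isConnected_A isConnected_B

theorem not_isConnected_inter : ¬ IsConnected (A ∩ B) := by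
  intro h
  have h1 : IsPreconnected ((fun p : X => p.1.2.1) '' (A ∩ B)) :=
    h.isPreconnected.image _ (by fun_prop)
  have h2 := h1.ordConnected
  have h3 : (0 : ℝ) ∈ ((fun p : X => p.1.2.1) '' (A ∩ B)) := by
    apply h2.out (x := -1) (y := 1)
    · exact ⟨south, ⟨show (0 : ℝ) ≤ 0 from le_rfl, show (0 : ℝ) ≤ 0 from le_rfl⟩, rfl⟩
    · exact ⟨north, ⟨show (0 : ℝ) ≤ 0 from le_rfl, show (0 : ℝ) ≤ 0 from le_rfl⟩, rfl⟩
    · constructor <;> norm_num
  obtain ⟨p, ⟨hA, hB⟩, hp⟩ := h3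
  have h4 := sq_add_sq p
  have h5 : p.1.2.2 = 0 := le_antisymm hB hA
  have h6 : p.1.2.1 = 0 := hp
  rw [h5, h6] at h4
  norm_num at h4

/-- parametrisation by the torus -/
noncomputable def tor (q : Circle × Circle) : X :=
  ⟨(((q.1 : ℂ).im : ℂ) * (q.2 : ℂ), (q.1 : ℂ).re, (q.1 : ℂ).im), by
    constructor
    · show ‖((q.1 : ℂ).im : ℂ) * (q.2 : ℂ)‖ ^ 2 + ((q.1 : ℂ).re) ^ 2 = 1
      rw [norm_mul, Circle.norm_coe, mul_one, Complex.norm_real, Real.norm_eq_abs, sq_abs]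
      have h := Circle.normSq_coe q.1
      rw [Complex.normSq_apply] at h
      nlinarith
    · show ((q.1 : ℂ).im) ^ 2 = ‖((q.1 : ℂ).im : ℂ) * (q.2 : ℂ)‖ ^ 2
      rw [norm_mul, Circle.norm_coe, mul_one, Complex.norm_real, Real.norm_eq_abs, sq_abs]⟩

theorem continuous_tor : Continuous tor := by
  unfold tor
  fun_prop

theorem surjective_tor : Function.Surjective tor := by
  intro p
  obtain ⟨θ, h1, h2⟩ : ∃ θ : ℝ, p.1.2.1 = Real.cos θ ∧ p.1.2.2 = Real.sin θ := by
    have hp : p ∈ A ∪ B := by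
      rw [A_union_B]
      trivial
    rcases hp with hp | hp
    · rw [← par_A] at hp
      obtain ⟨⟨θ, u⟩, -, rfl⟩ := hp
      exact ⟨θ, rfl, rfl⟩
    · rw [← par_B] at hp
      obtain ⟨⟨θ, u⟩, -, rfl⟩ := hp
      exact ⟨θ, rfl, rfl⟩
  obtain ⟨u, hu⟩ := exists_par p
  refine ⟨(Circle.exp θ, u), ?_⟩
  apply Subtype.ext
  show ((((Circle.exp θ : ℂ).im : ℂ) * (u : ℂ), (Circle.exp θ : ℂ).re, (Circle.exp θ : ℂ).im) :
    ℂ × ℝ × ℝ) = p.1
  have h3 : (Circle.exp θ : ℂ).im = p.1.2.2 := by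
    rw [Circle.coe_exp, Complex.exp_ofReal_mul_I_im, h2]
  have h4 : (Circle.exp θ : ℂ).re = p.1.2.1 := by
    rw [Circle.coe_exp, Complex.exp_ofReal_mul_I_re, h1]
  rw [h3, h4]
  exact Prod.ext hu.symm rfl

instance : LocallyConnectedSpace X := by
  have : LocallyPathConnectedSpace Circle :=
    (Circle.isCoveringMap_exp.isOpenMap.isQuotientMap Circle.exp.continuous
      Circle.exp_surjective).locallyPathConnectedSpace
  have : LocallyPathConnectedSpace X :=
    (continuous_tor.isClosedMap.isQuotientMap continuous_tor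
      surjective_tor).locallyPathConnectedSpace
  infer_instance

/-! ### the map `f` is a local homeomorphism -/

theorem isQuotientMap_f : IsQuotientMap f :=
  continuous_f.isClosedMap.isQuotientMap continuous_f surjective_f

theorem isOpenMap_f : IsOpenMap f := by
  intro U hU
  rw [← isQuotientMap_f.isOpen_preimage]
  have : f ⁻¹' (f '' U) = U ∪ sig ⁻¹' U := by
    ext p
    constructor
    · rintro ⟨q, hq, hqp⟩
      rcases f_eq hqp with rfl | rfl
      · exact Or.inl hq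
      · exact Or.inr hq
    · rintro (hp | hp)
      · exact ⟨p, hp, rfl⟩
      · exact ⟨sig p, hp, f_sig p⟩
  rw [this]
  exact hU.union (hU.preimage continuous_sig)

theorem isLocalHomeomorph_f : IsLocalHomeomorph f := by
  rw [isLocalHomeomorph_iff_isOpenEmbedding_restrict]
  intro x
  refine ⟨Metric.ball x (1 / 2), Metric.ball_mem_nhds x (by norm_num), ?_⟩
  apply IsOpenEmbedding.of_continuous_injective_isOpenMap
  · exact continuous_f.comp continuous_subtype_val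
  · rintro ⟨p, hp⟩ ⟨q, hq⟩ hpq
    apply Subtype.ext
    have hpq' : f p = f q := hpq
    rcases f_eq hpq' with h | h
    · exact h
    · exfalso
      have h1 := one_lt_dist_sig q
      rw [← h] at h1
      rw [Metric.mem_ball] at hp hq
      have h2 := dist_triangle_right q p x
      linarith
  · exact isOpenMap_f.comp Metric.isOpen_ball.isOpenMap_subtype_val

instance : CompactSpace Y := by
  rw [← isCompact_iff_compactSpace]
  exact (isCompact_iff_compactSpace.2 inferInstance : IsCompact X).image continuous_F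

instance : ConnectedSpace Y := surjective_f.connectedSpace continuous_f

/-! ### maps of `Y` to the circle lift -/

/-- the two discs -/
noncomputable def disc (q : Bool × Metric.closedBall (0 : ℂ) 1) : X :=
  ⟨((q.2 : ℂ), Real.sqrt (1 - ‖(q.2 : ℂ)‖ ^ 2), (if q.1 then 1 else -1) * ‖(q.2 : ℂ)‖), by
    have h1 : ‖(q.2 : ℂ)‖ ≤ 1 := by
      have := q.2.2
      rwa [mem_closedBall_zero_iff] at this
    have h2 : ‖(q.2 : ℂ)‖ ^ 2 ≤ 1 := pow_le_one₀ (norm_nonneg _) h1
    constructor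
    · show ‖(q.2 : ℂ)‖ ^ 2 + Real.sqrt (1 - ‖(q.2 : ℂ)‖ ^ 2) ^ 2 = 1
      rw [Real.sq_sqrt (by linarith)]
      ring
    · show ((if q.1 then 1 else -1) * ‖(q.2 : ℂ)‖) ^ 2 = ‖(q.2 : ℂ)‖ ^ 2
      split_ifs <;> ring⟩

theorem continuous_disc : Continuous disc := by
  unfold disc
  apply Continuous.subtype_mk
  rw [continuous_prod_of_discrete_left]
  intro b
  rcases b with _ | _
  · simp only [Bool.false_eq_true, if_false]
    fun_prop
  · simp only [if_true]
    fun_prop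

theorem disc_surj (p : X) (hp : 0 ≤ p.1.2.1) : ∃ q, disc q = p := by
  obtain ⟨⟨w, s, t⟩, h1, h2⟩ := p
  simp only at h1 h2 hp
  have hw : ‖w‖ ≤ 1 := by
    rw [← abs_of_nonneg (norm_nonneg w)]
    exact (sq_le_one_iff_abs_le_one _).1 (by nlinarith)
  refine ⟨(decide (0 ≤ t), ⟨w, by rwa [mem_closedBall_zero_iff]⟩), ?_⟩
  apply Subtype.ext
  show ((w, Real.sqrt (1 - ‖w‖ ^ 2), (if decide (0 ≤ t) = true then 1 else -1) * ‖w‖) :
    ℂ × ℝ × ℝ) = (w, s, t)
  have h3 : Real.sqrt (1 - ‖w‖ ^ 2) = s := by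
    rw [show 1 - ‖w‖ ^ 2 = s ^ 2 by linarith, Real.sqrt_sq hp]
  have h4 : |t| = ‖w‖ := by
    rw [← abs_of_nonneg (norm_nonneg w)]
    exact (sq_eq_sq_iff_abs_eq_abs _ _).1 h2
  rw [h3]
  by_cases ht : 0 ≤ t
  · rw [← h4, abs_of_nonneg ht]
    simp [ht]
  · rw [← h4, abs_of_neg (not_le.1 ht)]
    simp [ht]

theorem surjective_f_disc : Function.Surjective (f ∘ disc) := by
  intro y
  obtain ⟨p, rfl⟩ := surjective_f y
  rcases le_total 0 p.1.2.1 with h | h
  · obtain ⟨q, hq⟩ := disc_surj p h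
    exact ⟨q, by rw [Function.comp_apply, hq]⟩
  · obtain ⟨q, hq⟩ := disc_surj (sig p) (by show 0 ≤ -p.1.2.1; linarith)
    exact ⟨q, by rw [Function.comp_apply, hq, f_sig]⟩

theorem f_disc_eq {b b' : Bool} {w w' : Metric.closedBall (0 : ℂ) 1}
    (h : f (disc (b, w)) = f (disc (b', w'))) :
    ((w : ℂ) = 0 ∧ (w' : ℂ) = 0) ∨ (b = b' ∧ w = w') ∨
      (b = b' ∧ ‖(w : ℂ)‖ = 1 ∧ (w : ℂ) = -(w' : ℂ)) := by
  have ht : (disc (b, w)).1.2.2 = (disc (b', w')).1.2.2 := by
    have := congrArg (fun y : Y => y.1.2.2) h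
    exact this
  have ht' : (if b then (1 : ℝ) else -1) * ‖(w : ℂ)‖ = (if b' then (1 : ℝ) else -1) * ‖(w' : ℂ)‖ := ht
  rcases f_eq h with h1 | h1
  · have h2 : (w : ℂ) = w' := congrArg (fun p : X => p.1.1) h1
    by_cases hw : (w' : ℂ) = 0
    · left
      exact ⟨h2.trans hw, hw⟩
    · right; left
      refine ⟨?_, Subtype.ext h2⟩
      rw [h2] at ht'
      have h3 := mul_right_cancel₀ (norm_ne_zero_iff.2 hw) ht'
      rcases b with _ | _ <;> rcases b' with _ | _ <;> first | rfl | (exfalso; norm_num at h3)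
  · have h2 : (w : ℂ) = -w' := congrArg (fun p : X => p.1.1) h1
    have h4 : Real.sqrt (1 - ‖(w : ℂ)‖ ^ 2) = -Real.sqrt (1 - ‖(w' : ℂ)‖ ^ 2) :=
      congrArg (fun p : X => p.1.2.1) h1
    have hn : ‖(w : ℂ)‖ = ‖(w' : ℂ)‖ := by rw [h2, norm_neg]
    by_cases hw : (w' : ℂ) = 0
    · left
      exact ⟨by rw [h2, hw, neg_zero], hw⟩
    · right; right
      refine ⟨?_, ?_, h2⟩
      · rw [hn] at ht'
        have h3 := mul_right_cancel₀ (norm_ne_zero_iff.2 hw) ht'
        rcases b with _ | _ <;> rcases b' with _ | _ <;> first | rfl | (exfalso; norm_num at h3)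
      · rw [← hn] at h4
        have h5 : Real.sqrt (1 - ‖(w : ℂ)‖ ^ 2) = 0 := by
          have := Real.sqrt_nonneg (1 - ‖(w : ℂ)‖ ^ 2)
          linarith
        have h6 : ‖(w : ℂ)‖ ≤ 1 := by
          have := w.2
          rwa [mem_closedBall_zero_iff] at this
        have h7 : 1 - ‖(w : ℂ)‖ ^ 2 ≤ 0 := Real.sqrt_eq_zero'.1 h5
        have := norm_nonneg (w : ℂ)
        nlinarith

theorem f_disc_neg (b : Bool) (w w' : Metric.closedBall (0 : ℂ) 1) (hw : ‖(w : ℂ)‖ = 1)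
    (hw' : (w' : ℂ) = -(w : ℂ)) : f (disc (b, w')) = f (disc (b, w)) := by
  rw [← f_sig (disc (b, w))]
  congr 1
  apply Subtype.ext
  show (((w' : ℂ), Real.sqrt (1 - ‖(w' : ℂ)‖ ^ 2), (if b then 1 else -1) * ‖(w' : ℂ)‖) :
    ℂ × ℝ × ℝ) = (-(w : ℂ), -Real.sqrt (1 - ‖(w : ℂ)‖ ^ 2), (if b then 1 else -1) * ‖(w : ℂ)‖)
  rw [hw', norm_neg, hw]
  simp

theorem exists_disc_lift (g : C(Metric.closedBall (0 : ℂ) 1, Circle))
    (hg : ∀ w w' : Metric.closedBall (0 : ℂ) 1, ‖(w : ℂ)‖ = 1 → (w' : ℂ) = -(w : ℂ) → g w' = g w)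
    (θ : ℝ) (hθ : ∀ w : Metric.closedBall (0 : ℂ) 1, (w : ℂ) = 0 → g w = Circle.exp θ) :
    ∃ h : C(Metric.closedBall (0 : ℂ) 1, ℝ), (∀ w, Circle.exp (h w) = g w) ∧
      (∀ w : Metric.closedBall (0 : ℂ) 1, (w : ℂ) = 0 → h w = θ) ∧
      ∀ w w' : Metric.closedBall (0 : ℂ) 1, ‖(w : ℂ)‖ = 1 → (w' : ℂ) = -(w : ℂ) → h w' = h w := by
  -- the radial retraction
  let r : C(ℂ, Metric.closedBall (0 : ℂ) 1) :=
    ⟨fun w => ⟨((max 1 ‖w‖)⁻¹ : ℝ) • w, by
      rw [mem_closedBall_zero_iff, norm_smul, norm_inv, Real.norm_eq_abs,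
        abs_of_pos (lt_of_lt_of_le one_pos (le_max_left _ _)), inv_mul_le_iff₀
          (lt_of_lt_of_le one_pos (le_max_left _ _)), mul_one]
      exact le_max_right _ _⟩, by
      apply Continuous.subtype_mk
      have h1 : Continuous fun w : ℂ => max 1 ‖w‖ := continuous_const.max continuous_norm
      exact Continuous.smul (Continuous.inv₀ h1
        (fun w => (lt_of_lt_of_le one_pos (le_max_left _ _)).ne')) continuous_id⟩
  have hr : ∀ w : Metric.closedBall (0 : ℂ) 1, r (w : ℂ) = w := by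
    intro w
    apply Subtype.ext
    have h6 : ‖(w : ℂ)‖ ≤ 1 := by
      have := w.2
      rwa [mem_closedBall_zero_iff] at this
    show ((max 1 ‖(w : ℂ)‖)⁻¹ : ℝ) • (w : ℂ) = w
    rw [max_eq_left h6, inv_one, one_smul]
  have h0 : r (0 : ℂ) = (⟨0, by simp⟩ : Metric.closedBall (0 : ℂ) 1) := hr ⟨0, by simp⟩
  obtain ⟨H, ⟨hH0, hH⟩, -⟩ := Circle.isCoveringMap_exp.existsUnique_continuousMap_lifts
    (g.comp r) (0 : ℂ) θ (by
      show Circle.exp θ = g (r 0)
      rw [h0, hθ _ rfl])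
  have hH' : ∀ w, Circle.exp (H w) = g (r w) := fun w => congrFun hH w
  refine ⟨H.comp ⟨Subtype.val, continuous_subtype_val⟩, ?_, ?_, ?_⟩
  · intro w
    show Circle.exp (H (w : ℂ)) = g w
    rw [hH', hr]
  · intro w hw
    show H (w : ℂ) = θ
    rw [hw, hH0]
  · -- the antipodal symmetry on the boundary
    let a : Circle → ℝ := fun u => H (-(u : ℂ))
    let b : Circle → ℝ := fun u => H (u : ℂ)
    have ha : Continuous a := by fun_prop
    have hb : Continuous b := by fun_prop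
    have hcomp : Circle.exp ∘ a = Circle.exp ∘ b := by
      funext u
      show Circle.exp (H (-(u : ℂ))) = Circle.exp (H (u : ℂ))
      have hu : ‖(u : ℂ)‖ = 1 := Circle.norm_coe u
      rw [hH', hH']
      have e1 : r (u : ℂ) = ⟨(u : ℂ), by rw [mem_closedBall_zero_iff, hu]⟩ :=
        hr ⟨(u : ℂ), by rw [mem_closedBall_zero_iff, hu]⟩
      have e2 : r (-(u : ℂ)) = ⟨-(u : ℂ), by rw [mem_closedBall_zero_iff, norm_neg, hu]⟩ :=
        hr ⟨-(u : ℂ), by rw [mem_closedBall_zero_iff, norm_neg, hu]⟩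
      rw [e1, e2]
      exact hg _ _ hu rfl
    obtain ⟨u₀, hu₀⟩ : ∃ u₀, a u₀ - b u₀ = 0 := by
      have hd : Continuous fun u => a u - b u := ha.sub hb
      have hneg : (a (-1) - b (-1)) = -(a 1 - b 1) := by
        simp only [a, b]
        rw [Circle.coe_neg, Circle.coe_one, neg_neg]
        ring
      have := mem_range_of_exists_le_of_exists_ge (c := (0 : ℝ)) hd
        (by
          rcases le_total (a 1 - b 1) 0 with h | h
          · exact ⟨1, h⟩
          · exact ⟨-1, by rw [hneg]; linarith⟩)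
        (by
          rcases le_total (a 1 - b 1) 0 with h | h
          · exact ⟨-1, by rw [hneg]; linarith⟩
          · exact ⟨1, h⟩)
      exact this
    have hab : a = b := Circle.isCoveringMap_exp.eq_of_comp_eq ha hb hcomp u₀ (sub_eq_zero.1 hu₀)
    intro w w' hw hw'
    show H (w' : ℂ) = H (w : ℂ)
    rw [hw']
    have := congrFun hab ⟨(w : ℂ), by
      rw [Submonoid.unitSphere, ← SetLike.mem_coe]
      show (w : ℂ) ∈ Metric.sphere (0 : ℂ) 1
      rwa [mem_sphere_zero_iff_norm]⟩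
    exact this

theorem exists_lift (g : C(Y, Circle)) : ∃ h : C(Y, ℝ), ∀ y, Circle.exp (h y) = g y := by
  let q : C(Bool × Metric.closedBall (0 : ℂ) 1, Y) := ⟨f ∘ disc, continuous_f.comp continuous_disc⟩
  have hq : IsQuotientMap q :=
    (continuous_f.comp continuous_disc).isClosedMap.isQuotientMap
      (continuous_f.comp continuous_disc) surjective_f_disc
  let z : Metric.closedBall (0 : ℂ) 1 := ⟨0, by simp⟩
  obtain ⟨θ, hθ⟩ := Circle.exp_surjective (g (q (true, z)))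
  have hz : ∀ (b : Bool) (w : Metric.closedBall (0 : ℂ) 1), (w : ℂ) = 0 → g (q (b, w)) = Circle.exp θ := by
    intro b w hw
    rw [hθ]
    congr 1
    show f (disc (b, w)) = f (disc (true, z))
    congr 1
    apply Subtype.ext
    show (((w : ℂ), Real.sqrt (1 - ‖(w : ℂ)‖ ^ 2), (if b then 1 else -1) * ‖(w : ℂ)‖) :
      ℂ × ℝ × ℝ) = ((z : ℂ), Real.sqrt (1 - ‖(z : ℂ)‖ ^ 2), (if true then 1 else -1) * ‖(z : ℂ)‖)
    rw [hw]
    simp [z]
  have key : ∀ b : Bool, ∃ h : C(Metric.closedBall (0 : ℂ) 1, ℝ),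
      (∀ w, Circle.exp (h w) = g (q (b, w))) ∧ (∀ w : Metric.closedBall (0 : ℂ) 1, (w : ℂ) = 0 → h w = θ) ∧
      ∀ w w' : Metric.closedBall (0 : ℂ) 1, ‖(w : ℂ)‖ = 1 → (w' : ℂ) = -(w : ℂ) → h w' = h w := by
    intro b
    have := exists_disc_lift ((g.comp q).comp ⟨fun w => (b, w), by fun_prop⟩) (by
      intro w w' h1 h2
      show g (f (disc (b, w'))) = g (f (disc (b, w)))
      rw [f_disc_neg b w w' h1 h2]) θ (fun w hw => hz b w hw)
    exact this
  choose h h1 h2 h3 using key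
  let H : C(Bool × Metric.closedBall (0 : ℂ) 1, ℝ) := ⟨fun p => h p.1 p.2, by
    rw [continuous_prod_of_discrete_left]
    intro b
    exact (h b).continuous⟩
  have hfac : Function.FactorsThrough H q := by
    rintro ⟨b, w⟩ ⟨b', w'⟩ hbw
    show h b w = h b' w'
    rcases f_disc_eq hbw with ⟨e1, e2⟩ | ⟨rfl, rfl⟩ | ⟨rfl, e1, e2⟩
    · rw [h2 b w e1, h2 b' w' e2]
    · rfl
    · exact (h3 b w w' e1 (by rw [e2, neg_neg])).symm
  refine ⟨hq.lift H hfac, ?_⟩
  intro y
  obtain ⟨p, rfl⟩ := hq.surjective y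
  have := congrArg (fun k => k p) (hq.lift_comp H hfac)
  have e : hq.lift H hfac (q p) = H p := this
  rw [e]
  exact h1 p.1 p.2

end Pool.Agent.R815.Necklace
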