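import Mathlib

/-!
# Unicoherence from the lifting property; a wedge of two projective planes
-/

set_option autoImplicit false

namespace Pool.Agent.R815.Unicoherence

open Topology

/-- A connected normal space all of whose maps to the circle lift to the line is unicoherent. -/
theorem unicoherent_of_lift {Y : Type*} [TopologicalSpace Y] [NormalSpace Y] [ConnectedSpace Y]
    (hY : ∀ g : C(Y, Circle), ∃ h : C(Y, ℝ), ∀ y, Circle.exp (h y) = g y)
    (A B : Set Y) (hA : IsClosed A) (hB : IsClosed B) (hAc : IsConnected A) (hBc : IsConnected B)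
    (hAB : A ∪ B = Set.univ) : IsConnected (A ∩ B) := by
  classical
  constructor
  · have h := isPreconnected_closed_iff.1 (isPreconnected_univ (α := Y)) A B hA hB
      (by rw [hAB]) (by simpa using hAc.nonempty) (by simpa using hBc.nonempty)
    simpa using h
  · rw [isPreconnected_closed_iff]
    intro t t' ht ht' hsub hC hD
    by_contra hno
    rw [Set.not_nonempty_iff_eq_empty] at hno
    have hdis : Disjoint (A ∩ B ∩ t) (A ∩ B ∩ t') := by
      rw [Set.disjoint_left]
      rintro x ⟨hx1, hx2⟩ ⟨-, hx3⟩
      have : x ∈ A ∩ B ∩ (t ∩ t') := ⟨hx1, hx2, hx3⟩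
      rw [hno] at this
      exact this
    obtain ⟨u, hu0, hu1, -⟩ := exists_continuous_zero_one_of_isClosed
      ((hA.inter hB).inter ht) ((hA.inter hB).inter ht') hdis
    let g : Y → Circle := fun y =>
      if y ∈ A then Circle.exp (Real.pi * u y) else Circle.exp (-(Real.pi * u y))
    have hgA : ∀ y ∈ A, g y = Circle.exp (Real.pi * u y) := fun y hy => if_pos hy
    have hgB : ∀ y ∈ B, g y = Circle.exp (-(Real.pi * u y)) := by
      intro y hy
      by_cases hy' : y ∈ A
      · rw [hgA y hy']
        rcases hsub ⟨hy', hy⟩ with h | h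
        · have : u y = 0 := hu0 ⟨⟨hy', hy⟩, h⟩
          rw [this]
          simp
        · have : u y = 1 := hu1 ⟨⟨hy', hy⟩, h⟩
          rw [this, Circle.exp_eq_exp]
          exact ⟨1, by push_cast; ring⟩
      · exact if_neg hy'
    have hgc : Continuous g := by
      rw [← continuousOn_univ, ← hAB]
      apply ContinuousOn.union_of_isClosed _ _ hA hB
      · exact ContinuousOn.congr (by fun_prop) hgA
      · exact ContinuousOn.congr (by fun_prop) hgB
    obtain ⟨h, hh⟩ := hY ⟨g, hgc⟩
    obtain ⟨c, hcAB, hct⟩ := hC
    obtain ⟨d, hdAB, hdt⟩ := hD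
    have huc : u c = 0 := hu0 ⟨hcAB, hct⟩
    have hud : u d = 1 := hu1 ⟨hdAB, hdt⟩
    have h1 : Circle.exp (h c) = Circle.exp 0 := by
      have := hh c
      rw [this]
      show g c = _
      rw [hgA c hcAB.1, huc, mul_zero]
    obtain ⟨k, hk⟩ := Circle.exp_eq_exp.1 h1
    rw [zero_add] at hk
    have h2 : ∀ y, Circle.exp (h y - k * (2 * Real.pi)) = g y := by
      intro y
      have : Circle.exp (h y - k * (2 * Real.pi)) = Circle.exp (h y) := by
        rw [Circle.exp_eq_exp]
        exact ⟨-k, by push_cast; ring⟩
      rw [this]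
      exact hh y
    have hcon : Continuous fun y => h y - k * (2 * Real.pi) := by fun_prop
    have h3 : Set.EqOn (fun y => h y - k * (2 * Real.pi)) (fun y => Real.pi * u y) A :=
      Circle.isCoveringMap_exp.eqOn_of_comp_eqOn hAc.isPreconnected hcon.continuousOn
        (by fun_prop) (fun y hy => by
          show Circle.exp (h y - k * (2 * Real.pi)) = Circle.exp (Real.pi * u y)
          rw [h2, hgA y hy]) hcAB.1 (by
            show h c - k * (2 * Real.pi) = Real.pi * u c
            rw [huc, hk]; ring)
    have h4 : Set.EqOn (fun y => h y - k * (2 * Real.pi)) (fun y => -(Real.pi * u y)) B :=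
      Circle.isCoveringMap_exp.eqOn_of_comp_eqOn hBc.isPreconnected hcon.continuousOn
        (by fun_prop) (fun y hy => by
          show Circle.exp (h y - k * (2 * Real.pi)) = Circle.exp (-(Real.pi * u y))
          rw [h2, hgB y hy]) hcAB.2 (by
            show h c - k * (2 * Real.pi) = -(Real.pi * u c)
            rw [huc, hk]; ring)
    have h5 := h3 hdAB.1
    have h6 := h4 hdAB.2
    simp only [hud] at h5 h6
    rw [h5] at h6
    linarith [Real.pi_pos]

end Pool.Agent.R815.Unicoherence
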